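import Pool.Agent.MP_66cee2_co.D.SpecA

/-
Maps into spaces of dimension at most `2 d - 1`: the algebraic statements.
-/

namespace Pool.Agent.MP_66cee2_co.O

open Pool.Agent.MP_66cee2_co.X Pool.Agent.MP_66cee2_co.XI Pool.Agent.MP_66cee2_co.D

/-- values in a subspace of dimension at most `d + 1`. -/
def SA2p : Prop :=
  ∀ (d n : ℕ) (Q Q' : Ix n → MP d) (W : Submodule ℝ (Ix n → ℝ)), 3 ≤ d →
    Module.finrank ℝ W ≤ d + 1 → (∀ z, evv Q z ∈ W) → EdgeId Q Q' → Ort Q Q'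

/-- the filtration lemma for typed members. -/
def SA4t : Prop :=
  ∀ (d n : ℕ) (Q : Fin (d + 1) → Ix n → MP d) (D : Fin (d + 1) → ℕ) (w : Fin (d + 1) → E d),
    3 ≤ d → n + 1 ≤ 2 * d → (∀ k, Q k sI = 0 ∨ GC (Q k)) →
    (∀ k a, (Q k a).totalDegree ≤ D k) →
    (∀ k, 0 < lz (evv (hc (D k) (Q k)) (w k)) (evv (hc (D k) (Q k)) (w k))) →
    (∀ k l, k ≠ l → EdgeId (Q k) (Q l)) → ∀ k l, k ≠ l → Ort (Q k) (Q l)

/-- the clique lemma. -/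
def SClqO : Prop :=
  ∀ (d n : ℕ) (Q : Fin (d + 1) → Ix n → MP d), 3 ≤ d → n + 1 ≤ 2 * d → Clq Q →
    (∃ k l, k ≠ l ∧ IsoQ (Q k) ∧ IsoQ (Q l)) ∨ ∀ k l, k ≠ l → Ort (Q k) (Q l)

/-- orthogonality of jets. -/
def SOrtJO : Prop :=
  ∀ (d n : ℕ) (P : E d → Matrix (Ix n) (Ix n) ℝ) (u : E d → Ix n → ℝ), 3 ≤ d → n + 1 ≤ 2 * d →
    JetField P u → (AllPair fun x y => ¬ (IsoX u x ∧ IsoX u y)) →
    AllPair fun x y => ∀ Q Q', Jt u x Q → Jt u y Q' → Ort Q Q'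

end Pool.Agent.MP_66cee2_co.O
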