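import Pool.Agent.MP_66cee2_co.O.SpecO
import Pool.Agent.MP_66cee2_co.D.A3
import Pool.Agent.MP_66cee2_co.D.A4

/-
The filtration lemma for typed members in dimension at most `2 d - 1`.
-/

namespace Pool.Agent.MP_66cee2_co.O

open Polynomial Pool.Agent.MP_66cee2_co.X Pool.Agent.MP_66cee2_co.XI
  Pool.Agent.MP_66cee2_co.D.H63

namespace A4x

variable {d n : ℕ}

theorem lz_sub (a b z : Ix n → ℝ) (c : ℝ) : lz (a - c • b) z = lz a z - c * lz b z := by
  simp only [lz, sub_dotProduct, smul_dotProduct, smul_eq_mul]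

theorem ex_dual {g : Ix n → ℝ} (hg : g ≠ 0) : ∃ h, lz h g ≠ 0 := by
  classical
  by_contra hc
  push Not at hc
  apply hg
  have h1 : ∀ a, Jv g a = 0 := fun a => by simpa [lz] using hc (Pi.single a 1)
  funext a
  rcases a with a | b
  · simpa [Jv] using h1 (Sum.inl a)
  · simpa [Jv] using h1 (Sum.inr !b)

theorem det_zero2 (hn : n + 1 ≤ 2 * d) (F : Fin (d + 1) → Ix n → ℝ)
    (hp : ∀ k, 0 < lz (F k) (F k)) (ho : ∀ k l, k ≠ l → lz (F k) (F l) = 0) (i : Fin (d + 1))
    (u v : Fin d → Ix n → ℝ) (hu : ∀ a k, k ≠ i → lz (u a) (F k) = 0)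
    (hv : ∀ b, lz (F i) (v b) = 0) (g : Ix n → ℝ) (hg0 : g ≠ 0) (hgF : ∀ k, lz (F k) g = 0)
    (hgu : ∀ a, lz (u a) g = 0) :
    Matrix.det (Matrix.of fun a b => lz (u a) (v b)) = 0 := by
  classical
  obtain ⟨h, hh⟩ := ex_dual hg0
  let u' : Fin d → Ix n → ℝ := fun a => u a - (lz (u a) (F i) / lz (F i) (F i)) • F i
  have hs : ∀ a z, lz (u' a) z = lz (u a) z - (lz (u a) (F i) / lz (F i) (F i)) * lz (F i) z :=
    fun a z => lz_sub _ _ _ _
  have h1 : ∀ a k, lz (u' a) (F k) = 0 := by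
    intro a k
    rw [hs]
    by_cases hk : k = i
    · subst hk
      have := (hp k).ne'
      field_simp
      ring
    · rw [hu a k hk, ho i k (Ne.symm hk)]; ring
  have h2 : ∀ a b, lz (u' a) (v b) = lz (u a) (v b) := by
    intro a b; rw [hs, hv]; ring
  have h3 : ∀ a, lz (u' a) g = 0 := by
    intro a; rw [hs, hgu, hgF]; ring
  have hdep : ¬ LinearIndependent ℝ (Sum.elim u' (Sum.elim F fun _ : Unit => h)) := by
    intro h
    have := h.fintype_card_le_finrank
    simp at this
    omega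
  rw [Fintype.not_linearIndependent_iff] at hdep
  obtain ⟨c, hc, s, hs0⟩ := hdep
  have hp2 : ∀ z, ∑ a, c (Sum.inl a) * lz (u' a) z +
      (∑ k, c (Sum.inr (Sum.inl k)) * lz (F k) z + c (Sum.inr (Sum.inr ())) * lz h z) = 0 := by
    intro z
    have := congrArg (fun t => lz t z) hc
    simpa [lz, Fintype.sum_sum_type, add_dotProduct, sum_dotProduct, smul_dotProduct] using this
  have hq : c (Sum.inr (Sum.inr ())) = 0 := by
    have := hp2 g
    simp only [h3, hgF, mul_zero, Finset.sum_const_zero, zero_add] at this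
    exact (mul_eq_zero.1 this).resolve_right hh
  have hr : ∀ k, c (Sum.inr (Sum.inl k)) = 0 := by
    intro k
    have := hp2 (F k)
    rw [Finset.sum_eq_zero (fun a _ => by rw [h1, mul_zero]), zero_add, hq, zero_mul, add_zero,
      Finset.sum_eq_single k (fun l _ hl => by rw [ho l k hl, mul_zero]) (by simp)] at this
    exact (mul_eq_zero.1 this).resolve_right (hp k).ne'
  rw [← Matrix.exists_vecMul_eq_zero_iff]
  refine ⟨fun a => c (Sum.inl a), ?_, ?_⟩
  · intro h0
    rcases s with a | k | k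
    · exact hs0 (congrFun h0 a)
    · exact hs0 (hr k)
    · exact hs0 hq
  · funext b
    have := hp2 (v b)
    simp only [hr, hq, zero_mul, Finset.sum_const_zero, add_zero, h2] at this
    simpa [Matrix.vecMul, dotProduct] using this

theorem uni (A l S : ℝ[X]) (D b : ℕ) (φ σ : ℝ) (hA : A.natDegree ≤ D) (hA0 : A.coeff D ≠ 0)
    (hl : l.natDegree ≤ b) (hS : S.natDegree ≤ b + b) (hb : b < D) (hφ : 0 < φ)
    (h : S + C φ * (A * A) = (C σ * A + l) * (C σ * A + l)) : l.coeff b = 0 := by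
  have e : C (φ - σ * σ) * (A * A) = C (2 * σ) * (A * l) + l * l - S := by
    rw [C_sub, C_mul, C_mul, show (C 2 : ℝ[X]) = 2 from map_ofNat C 2]
    linear_combination h
  have d1 : (A * l).natDegree ≤ D + b := natDegree_mul_le.trans (add_le_add hA hl)
  have d2 : (l * l).natDegree ≤ b + b := natDegree_mul_le.trans (add_le_add hl hl)
  have e1 := congrArg (fun p => coeff p (D + D)) e
  simp only [coeff_sub, coeff_add, coeff_C_mul] at e1
  rw [coeff_mul_add_eq_of_natDegree_le hA hA,
    coeff_eq_zero_of_natDegree_lt (p := A * l) (by omega),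
    coeff_eq_zero_of_natDegree_lt (p := l * l) (by omega),
    coeff_eq_zero_of_natDegree_lt (p := S) (by omega)] at e1
  have e2 : φ - σ * σ = 0 :=
    (mul_eq_zero.1 (e1.trans (by ring))).resolve_right (mul_ne_zero hA0 hA0)
  have hσ : σ ≠ 0 := by
    rintro rfl
    linarith
  have e3 := congrArg (fun p => coeff p (D + b)) e
  simp only [coeff_sub, coeff_add, coeff_C_mul, e2, zero_mul] at e3
  rw [coeff_mul_add_eq_of_natDegree_le hA hl,
    coeff_eq_zero_of_natDegree_lt (p := l * l) (by omega),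
    coeff_eq_zero_of_natDegree_lt (p := S) (by omega)] at e3
  have e4 : 2 * σ * (A.coeff D * l.coeff b) = 0 := by linarith
  exact (mul_eq_zero.1 ((mul_eq_zero.1 e4).resolve_left
    (mul_ne_zero two_ne_zero hσ))).resolve_left hA0

theorem gc_pt (Q : Ix n → MP d) (D b : ℕ) (F : Ix n → ℝ) (hD : ∀ a, (Q a).totalDegree ≤ D)
    (hp : 0 < lz F F) (hb : b < D) (hG : GC Q) (y : E d) (hy : lz (cv Q y D) F ≠ 0)
    (hpar : ∀ c, b < c → cv Q y c - (lz (cv Q y c) F / lz F F) • F = 0) :
    cv Q y b sI - lz (cv Q y b) F / lz F F * F sI = 0 := by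
  set φ := lz F F with hφ
  let P : Ix n → ℝ[X] := fun a => ln (Q a) 0 y
  let A : ℝ[X] := C φ⁻¹ * ∑ a, P a * C (Jv F a)
  let R : Ix n → ℝ[X] := fun a => P a - C (F a) * A
  have hA : ∀ c, A.coeff c = lz (cv Q y c) F / φ := fun c => by
    simp only [A, coeff_C_mul, finsetSum_coeff, coeff_mul_C]
    rw [div_eq_inv_mul]
    rfl
  have hR : ∀ a c, (R a).coeff c = (cv Q y c - (lz (cv Q y c) F / φ) • F) a := fun a c => by
    simp only [R, coeff_sub, coeff_C_mul, hA, Pi.sub_apply, Pi.smul_apply, smul_eq_mul]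
    rw [mul_comm]
    rfl
  have hRd : ∀ a, (R a).natDegree ≤ b := fun a =>
    natDegree_le_iff_coeff_eq_zero.2 fun c hc => by rw [hR, hpar c hc]; rfl
  have hm : ∀ a a', (R a * R a').natDegree ≤ b + b := fun a a' =>
    natDegree_mul_le.trans (add_le_add (hRd a) (hRd a'))
  have := uni A (R sI) (C 2 * ∑ i, R (Sum.inl i) * R (Sum.inl i) +
      R (Sum.inr true) * R (Sum.inr false) + R (Sum.inr false) * R (Sum.inr true)) D b φ (F sI)
    (natDegree_le_iff_coeff_eq_zero.2 fun c hc => by rw [hA, cv_zero hD y hc]; simp [lz])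
    (by rw [hA]; exact div_ne_zero hy hp.ne') (hRd sI)
    (natDegree_add_le_of_degree_le (natDegree_add_le_of_degree_le
      ((natDegree_C_mul_le _ _).trans (natDegree_sum_le_of_forall_le _ _ fun i _ => hm _ _))
      (hm _ _)) (hm _ _)) hb hp (by
      refine Polynomial.funext fun s => ?_
      have g := hG (0 + s • y)
      have hP : ∀ a, (P a).eval s = evv Q (0 + s • y) a := fun a => eval_ln _ _ _ _
      set q := evv Q (0 + s • y) with hq
      have hAe : A.eval s = lz q F / φ := by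
        simp only [A, eval_mul, eval_C, eval_finsetSum, hP]
        rw [div_eq_inv_mul]
        rfl
      have hRe : ∀ a, (R a).eval s = (q - (lz q F / φ) • F) a := fun a => by
        simp only [R, eval_sub, eval_mul, eval_C, hP, hAe, Pi.sub_apply, Pi.smul_apply,
          smul_eq_mul]
        ring
      have e1 : lz (q - (lz q F / φ) • F) (q - (lz q F / φ) • F) =
          lz q q - lz q F / φ * lz q F := by
        rw [lz_sub, lz_comm q (q - _), lz_sub, lz_comm F (q - _), lz_sub, lz_comm F q, ← hφ]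
        have := hp.ne'
        field_simp
        ring
      simp only [eval_add, eval_mul, eval_C, eval_finsetSum, hRe, hAe]
      rw [← lz_eq, e1, g]
      have e2 : ev (Q sI) (0 + s • y) = q sI := rfl
      simp only [e2, Pi.sub_apply, Pi.smul_apply, smul_eq_mul]
      have := hp.ne'
      field_simp
      ring)
  rw [hR] at this
  exact this

theorem gc_perp (Q : Ix n → MP d) (D b : ℕ) (w : E d) (hD : ∀ a, (Q a).totalDegree ≤ D)
    (hp : 0 < lz (cv Q w D) (cv Q w D)) (hb : b < D) (hG : GC Q)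
    (hpar : ∀ y c, b < c →
      cv Q y c - (lz (cv Q y c) (cv Q w D) / lz (cv Q w D) (cv Q w D)) • cv Q w D = 0) (y : E d) :
    cv Q y b sI - lz (cv Q y b) (cv Q w D) / lz (cv Q w D) (cv Q w D) * cv Q w D sI = 0 := by
  set F := cv Q w D with hF
  let pa : ℕ → MP d := fun c =>
    ∑ a, MvPolynomial.homogeneousComponent c (Q a) * MvPolynomial.C (Jv F a)
  have hpa : ∀ c z, ev (pa c) z = lz (cv Q z c) F := fun c z => by
    simp only [lz, dotProduct, cv, co_eq_ev]
    simp [pa, ev]
  let pl : MP d := MvPolynomial.homogeneousComponent b (Q sI) -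
    pa b * MvPolynomial.C (F sI / lz F F)
  have hpl : ∀ z, ev pl z = cv Q z b sI - lz (cv Q z b) F / lz F F * F sI := fun z => by
    have e : ev pl z = ev (MvPolynomial.homogeneousComponent b (Q sI)) z -
      ev (pa b) z * (F sI / lz F F) := by simp [pl, ev]
    rw [e, hpa, ← co_eq_ev]
    simp only [cv]
    ring
  have h0 : pa D * pl = 0 := MvPolynomial.funext fun v => by
    have e : MvPolynomial.eval v (pa D * pl) =
      ev (pa D) (WithLp.toLp 2 v) * ev pl (WithLp.toLp 2 v) := by simp [ev]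
    rw [e, map_zero, hpa, hpl]
    by_cases hy : lz (cv Q (WithLp.toLp 2 v) D) F = 0
    · rw [hy, zero_mul]
    · rw [gc_pt Q D b F hD hp hb hG _ hy (hpar _), mul_zero]
  have h1 : pa D ≠ 0 := fun e => by
    have := hpa D w
    rw [e, ← hF] at this
    simp only [ev, map_zero] at this
    exact hp.ne this
  rw [← hpl, (mul_eq_zero.1 h0).resolve_left h1]
  simp [ev]

theorem det_typ (hn : n + 1 ≤ 2 * d) (Q : Fin (d + 1) → Ix n → MP d) (D : Fin (d + 1) → ℕ)
    (w : Fin (d + 1) → E d) (hD : ∀ i a, (Q i a).totalDegree ≤ D i)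
    (hp : ∀ i, 0 < lz (cv (Q i) (w i) (D i)) (cv (Q i) (w i) (D i)))
    (ho : ∀ k l, k ≠ l → lz (cv (Q k) (w k) (D k)) (cv (Q l) (w l) (D l)) = 0)
    (i j : Fin (d + 1)) (hT : Q j sI = 0 ∨ GC (Q j)) (b : ℕ) (hb : b < D j)
    (u : Fin d → Ix n → ℝ) (y : Fin d → E d)
    (hu : ∀ a k, k ≠ i → lz (u a) (cv (Q k) (w k) (D k)) = 0) (hij : i ≠ j)
    (hv : ∀ z c, b ≤ c → ∀ l, l ≠ j → lz (cv (Q l) (w l) (D l)) (cv (Q j) z c) = 0)
    (hM : ∀ a z c, b < c → lz (u a) (cv (Q j) z c) = 0) :
    Matrix.det (Matrix.of fun a b' => lz (u a) (cv (Q j) (y b') b)) = 0 := by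
  classical
  set F : Fin (d + 1) → Ix n → ℝ := fun k => cv (Q k) (w k) (D k) with hF
  have hp' : ∀ k, 0 < lz (F k) (F k) := hp
  have ho' : ∀ k l, k ≠ l → lz (F k) (F l) = 0 := ho
  have hu' : ∀ a k, k ≠ i → lz (u a) (F k) = 0 := hu
  have hv' : ∀ z c, b ≤ c → ∀ l, l ≠ j → lz (F l) (cv (Q j) z c) = 0 := hv
  by_cases hpar : ∀ z c, b < c →
      cv (Q j) z c - (lz (cv (Q j) z c) (F j) / lz (F j) (F j)) • F j = 0
  · let e : Ix n → ℝ := Pi.single (Sum.inr false) 1
    have s1 : ∀ v : Ix n → ℝ, lz v e = v sI := fun v => by simp [e, lz_eq]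
    let g : Ix n → ℝ := e - ∑ k, (F k sI / lz (F k) (F k)) • F k
    have hg : ∀ z, lz z g = z sI - ∑ k, F k sI / lz (F k) (F k) * lz z (F k) := fun z => by
      rw [lz_comm, ← s1 z, lz_comm z e, Finset.sum_congr rfl fun k _ => by rw [lz_comm z (F k)]]
      simp only [g, lz, sub_dotProduct, sum_dotProduct, smul_dotProduct, smul_eq_mul]
    have hg0 : g ≠ 0 := fun h0 => by
      have h1 := hg e
      rw [h0] at h1
      have h2 : ∑ k, F k sI / lz (F k) (F k) * F k sI = 0 := by
        rw [Finset.sum_congr rfl fun k _ => by rw [lz_comm e (F k), s1]] at h1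
        simpa [lz, Jv, e, dotProduct] using h1
      have h3 := (Finset.sum_eq_zero_iff_of_nonneg fun k _ => by
        rw [div_mul_eq_mul_div]
        exact div_nonneg (mul_self_nonneg _) (hp' k).le).1 h2
      have h4 : ∀ k, F k sI = 0 := fun k => by
        have := h3 k (Finset.mem_univ k)
        rw [div_mul_eq_mul_div, div_eq_zero_iff] at this
        exact mul_self_eq_zero.1 (this.resolve_right (hp' k).ne')
      have h5 := congrFun h0 (Sum.inr false)
      simp [g, e, h4] at h5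
    rw [← Matrix.det_transpose]
    have := det_zero2 hn F hp' ho' j (fun b' => cv (Q j) (y b') b) u
      (fun a k hk => by rw [lz_comm]; exact hv' _ _ le_rfl k hk)
      (fun a => by rw [lz_comm]; exact hu' a j hij.symm) g hg0
      (fun k => by
        rw [hg, Finset.sum_eq_single k (fun l _ hl => by rw [ho' k l hl.symm, mul_zero]) (by simp),
          div_mul_cancel₀ _ (hp' k).ne', sub_self])
      (fun a => by
        rw [hg, Finset.sum_eq_single j
          (fun l _ hl => by
            rw [lz_comm (cv (Q j) (y a) b) (F l), hv' _ _ le_rfl l hl, mul_zero]) (by simp)]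
        rcases hT with h | h
        · have z0 : ∀ z c, cv (Q j) z c sI = 0 := fun z c => by simp [cv, h, co, ln]
          rw [z0, show F j sI = 0 from z0 _ _]
          simp
        · have := gc_perp (Q j) (D j) b (w j) (hD j) (hp j) hb h hpar (y a)
          rw [← this]
          simp only [hF]
          ring)
    rw [← this]
    congr 1
    ext a b'
    simp only [Matrix.transpose_apply, Matrix.of_apply]
    exact lz_comm _ _
  · push Not at hpar
    obtain ⟨z, c, hc, hg0⟩ := hpar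
    refine det_zero2 hn F hp' ho' i u (fun b' => cv (Q j) (y b') b) hu'
      (fun b' => hv' _ _ le_rfl i hij) _ hg0 (fun k => ?_) fun a => ?_
    · rw [lz_comm, lz_sub]
      by_cases hk : k = j
      · subst hk
        rw [div_mul_cancel₀ _ (hp' k).ne', sub_self]
      · rw [lz_comm _ (F k), hv' z c hc.le k hk, ho' j k (Ne.symm hk), mul_zero, sub_self]
    · rw [lz_comm, lz_sub, lz_comm (cv _ _ _) (u a),
        hM a z c hc, lz_comm (F j) (u a), hu' a j hij.symm,
        mul_zero, sub_self]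

theorem a4t (hd : 3 ≤ d) (hn : n + 1 ≤ 2 * d) (h3 : A3 d) (Q : Fin (d + 1) → Ix n → MP d)
    (hT : ∀ k, Q k sI = 0 ∨ GC (Q k))
    (D : Fin (d + 1) → ℕ) (w : Fin (d + 1) → E d) (hD : ∀ i a, (Q i a).totalDegree ≤ D i)
    (hp : ∀ i, 0 < lz (cv (Q i) (w i) (D i)) (cv (Q i) (w i) (D i)))
    (hE : ∀ i j, i ≠ j → EdgeId (Q i) (Q j)) :
    ∀ i j, i ≠ j → ∀ z z', lz (evv (Q i) z) (evv (Q j) z') = 0 := by
  classical
  have hle : ∀ i j x y a b, lz (cv (Q i) x a) (cv (Q j) y b) ≠ 0 → a ≤ D i ∧ b ≤ D j := by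
    intro i j x y a b h
    constructor
    · by_contra h'
      exact h (by rw [cv_zero (hD i) x (not_le.1 h')]; simp [lz])
    · by_contra h'
      exact h (by rw [lz_comm, cv_zero (hD j) y (not_le.1 h')]; simp [lz])
  suffices H : ∀ i j, i ≠ j → ∀ x y a b, lz (cv (Q i) x a) (cv (Q j) y b) = 0 by
    intro i j hij z z'
    rw [← e2_Kp, ← psi_eval]
    have : psi z z' (Kp (Q i) (Q j)) = 0 := by
      ext m a
      rw [psi_Kp, H i j hij]; simp
    rw [this]; simp
  by_contra hc
  push Not at hc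
  have hex : ∃ t, ∃ i j, i ≠ j ∧ ∃ x y a b, lz (cv (Q i) x a) (cv (Q j) y b) ≠ 0 ∧
      a + b + t = D i + D j := by
    obtain ⟨i, j, hij, x, y, a, b, h⟩ := hc
    have := hle i j x y a b h
    exact ⟨D i + D j - (a + b), i, j, hij, x, y, a, b, h, by omega⟩
  obtain ⟨i, j, hij, x₀, y₀, a₀, b₀, h₀, ht⟩ := Nat.find_spec hex
  set t := Nat.find hex with htdef
  have hmin : ∀ k l, k ≠ l → ∀ x y a b, D k + D l < a + b + t →
      lz (cv (Q k) x a) (cv (Q l) y b) = 0 := by
    intro k l hkl x y a b hlt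
    by_contra h
    have h1 := hle k l x y a b h
    have h2 : t ≤ D k + D l - (a + b) :=
      Nat.find_min' hex ⟨k, l, hkl, x, y, a, b, h, by omega⟩
    omega
  obtain ⟨M, Λ, hΛ, hM, hC⟩ := pair (by omega) (Q i) (Q j) (hE i j hij) ⟨x₀, y₀, a₀, b₀, h₀⟩
  have hnz : ∀ a, (qq d * Λ).coeff a ≠ 0 → a ≤ M ∧ a ≤ D i ∧ M - a ≤ D j ∧ M + t ≤ D i + D j := by
    intro a ha
    obtain ⟨x, y, hxy⟩ := ex_pt ha
    rw [hC] at hxy
    by_cases h : a ≤ M
    · rw [if_pos h, neg_ne_zero] at hxy
      have h1 := hle _ _ _ _ _ _ hxy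
      refine ⟨h, h1.1, h1.2, ?_⟩
      by_contra h2
      exact hxy (hmin i j hij x y a (M - a) (by omega))
    · rw [if_neg h] at hxy
      exact absurd neg_zero hxy
  have htop := hnz (Λ.natDegree + 2) (by
    rw [qq_coeff, coeff_X_pow_mul, coeff_X_pow_mul', if_pos (by omega),
      coeff_eq_zero_of_natDegree_lt (p := Λ) (n := Λ.natDegree + 2 - 1) (by omega),
      coeff_eq_zero_of_natDegree_lt (p := Λ) (n := Λ.natDegree + 2) (by omega)]
    simp only [mul_zero, sub_zero, add_zero]
    exact mul_ne_zero (sq_ne (by omega) Sum.inl) (leadingCoeff_ne_zero.2 hΛ))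
  have hbot := hnz Λ.natTrailingDegree (by
    have hz : ∀ k, 1 ≤ k → (X ^ k * Λ).coeff Λ.natTrailingDegree = 0 := by
      intro k hk
      rw [coeff_X_pow_mul']
      split_ifs with h
      · exact coeff_eq_zero_of_lt_natTrailingDegree (by omega)
      · rfl
    rw [qq_coeff, hz 2 (by omega), hz 1 le_rfl]
    simp only [mul_zero, sub_zero, zero_add]
    exact mul_ne_zero (sq_ne (by omega) Sum.inr) (trailingCoeff_nonzero_iff_nonzero.2 hΛ))
  have hM0 : a₀ + b₀ ≤ M := by
    by_contra h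
    exact h₀ (hM _ _ _ _ (not_le.1 h))
  have hMt : M + t = D i + D j := by omega
  have hnt : Λ.natTrailingDegree ≤ Λ.natDegree := natTrailingDegree_le_natDegree Λ
  have hall := h3 (fun k => (X ^ 1 * Λ).coeff k) (by simp)
    ⟨Λ.natDegree + 1, fun k hk => by
      rw [coeff_X_pow_mul', if_pos (by omega)]
      exact coeff_eq_zero_of_natDegree_lt (by omega)⟩ (fun k hk x y => by
      rw [coeff_X_pow_mul] at hk
      have hk1 : k ≤ Λ.natDegree := le_natDegree_of_ne_zero hk
      have hk2 : Λ.natTrailingDegree ≤ k := natTrailingDegree_le_of_ne_zero hk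
      have hdet := det_typ hn Q D w hD hp (fun k l hkl => hmin k l hkl _ _ _ _ (by omega)) i j
        (hT j) (M - (k + 1)) (by omega)
        (fun a => -cv (Q i) (WithLp.toLp 2 (x a)) (k + 1)) (fun b => WithLp.toLp 2 (y b))
        (fun a l hl => by
          have := hmin i l (Ne.symm hl) (WithLp.toLp 2 (x a)) (w l) (k + 1) (D l) (by omega)
          simp only [lz, neg_dotProduct] at this ⊢
          rw [this, neg_zero]) hij
        (fun z c hc l hl => hmin l j hl _ _ _ _ (by omega))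
        (fun a z c hc => by
          have := hM (WithLp.toLp 2 (x a)) z (k + 1) c (by omega)
          simp only [lz, neg_dotProduct] at this ⊢
          rw [this, neg_zero])
      rw [← hdet]
      congr 1
      ext a b
      have h1 := hC (WithLp.toLp 2 (x a)) (WithLp.toLp 2 (y b)) (k + 1)
      rw [if_pos (by omega), qq_coeff] at h1
      have e1 : (X ^ 2 * Λ).coeff (k + 1) = (X ^ 1 * Λ).coeff k := by
        rw [show (X ^ 2 * Λ : (R2 d)[X]) = X ^ 1 * (X ^ 1 * Λ) by ring, coeff_X_pow_mul]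
      have e2' : Λ.coeff (k + 1) = (X ^ 1 * Λ).coeff (k + 2) := (coeff_X_pow_mul Λ 1 (k + 1)).symm
      rw [e1, e2'] at h1
      simp only [Matrix.of_apply]
      rw [show lz (-cv (Q i) (WithLp.toLp 2 (x a)) (k + 1))
          (cv (Q j) (WithLp.toLp 2 (y b)) (M - (k + 1))) =
        -lz (cv (Q i) (WithLp.toLp 2 (x a)) (k + 1))
          (cv (Q j) (WithLp.toLp 2 (y b)) (M - (k + 1))) by simp only [lz, neg_dotProduct], ← h1]
      rfl)
  have := hall (Λ.natDegree + 1)
  simp only [coeff_X_pow_mul] at this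
  exact leadingCoeff_ne_zero.2 hΛ this

end A4x

theorem sA4t : SA4t := by
  intro d n Q N w hd hn hT hD hp hE k l hkl
  refine A4x.a4t hd hn (D.a3_of D.sA3 d hd) Q hT N w hD (fun i => ?_) hE k l hkl
  have : cv (Q i) (w i) (N i) = evv (D.hc (N i) (Q i)) (w i) :=
    funext fun a => co_eq_ev _ _ _
  rw [this]
  exact hp i

end Pool.Agent.MP_66cee2_co.O
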