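import Pool.Agent.MP_66cee2_co.O.AllP
import Pool.Agent.MP_66cee2_co.O.A4t
import Pool.Agent.MP_66cee2_co.D.Main

/-
Maps into spaces of dimension at most `2 d - 1`: reduction to the topological theorem.
-/

namespace Pool.Agent.MP_66cee2_co.O

open Pool.Agent.MP_66cee2_co.X Pool.Agent.MP_66cee2_co.D

theorem sClqAllO : SClqO := clqO_of sA4t

theorem sOrtJAllO : SOrtJO := ortJO_of sA4t

theorem sDichAllO : SDichp := dichp_of sA4t

theorem allIso_of_noFam (d n : ℕ) (hd : 3 ≤ d) (hn : n + 1 ≤ 2 * d)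
    (h : ∀ O : (Ix n → ℝ) → Set (E d), ¬ Fam O) : XT.AllIso d n := by
  refine sTrAll d n hd fun P hP => ?_
  obtain ⟨u, hu⟩ := sJ3 d n hd P hP
  rcases sDichAllO d n P u hd hn hP hu with h1 | ⟨V, hV⟩
  · exact h1
  · obtain ⟨O, hO⟩ := sFam d n V hd hV
    exact absurd hO (h O)

end Pool.Agent.MP_66cee2_co.O
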