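import Pool.Agent.MP_66cee2_co.O.SpecP
import Pool.Agent.MP_66cee2_co.D.Dich

/-
The dichotomy: an isometry, or a flat field of positive vectors.
-/

namespace Pool.Agent.MP_66cee2_co.O

open Pool.Agent.MP_66cee2_co.D

open MeasureTheory Set Filter Metric Topology Matrix Pool.Agent.MP_66cee2_co.X
  Pool.Agent.MP_66cee2_co.XI
open scoped ENNReal RealInnerProductSpace

open Dichx in
theorem sDichp : SCaseB → SOrtJO → SVf → SPvE → SDichp := by
  intro hB hO hV hE d n P u hd hn hP hu
  rcases hB d n P u (by omega) hP hu with h | h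
  · exact Or.inl h
  obtain ⟨V, mV, h1, h2⟩ := hV d n P u (by omega) hu
  refine Or.inr ⟨V, mV, h1.mono fun x hx => hx.1, ae_of_all (by omega) (meas_lz mV) ?_, h2⟩
  intro w hw
  filter_upwards [hO d n P u hd hn hu h w hw, h1,
    (measurePreserving_add_right volume w).quasiMeasurePreserving.ae h1] with x ho hx hy
  obtain ⟨-, Q, R, z, c, j, p, e⟩ := hx
  obtain ⟨-, Q', R', z', c', j', p', e'⟩ := hy
  have o1 := (hE d n).2 R Q Q' p (ty_ne j.2) (ho Q Q' j j')
  have o2 := (hE d n).2 R' Q' R p' (ty_ne j'.2) o1.symm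
  rw [e, e', lz_sm, o2.symm z z', mul_zero]

end Pool.Agent.MP_66cee2_co.O
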