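import Pool.Agent.MP_66cee2_co.O.Clq1
import Pool.Agent.MP_66cee2_co.O.Clq
import Pool.Agent.MP_66cee2_co.O.OrtJ
import Pool.Agent.MP_66cee2_co.O.Dich
import Pool.Agent.MP_66cee2_co.H96.A2p
import Pool.Agent.MP_66cee2_co.D.AllA

/-
Maps into spaces of dimension at most `2 d - 1`: the clique lemma and the dichotomy from the
filtration lemma.
-/

namespace Pool.Agent.MP_66cee2_co.O

open Pool.Agent.MP_66cee2_co.D

theorem clqO_of (h : SA4t) : SClqO :=
  sClqO (sClq1p h sA2p) (sBI sDegG (sSlope sLin sAffP sConf)) sDegG sDegT h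

theorem ortJO_of (h : SA4t) : SOrtJO := sOrtJO sJt (clqO_of h) sSimp

theorem dichp_of (h : SA4t) : SDichp :=
  sDichp (sCaseB sJt) (ortJO_of h) (sVf sJt sPvC sPvH (sPvE sJt) (sVone sPvC sPvH)) (sPvE sJt)

end Pool.Agent.MP_66cee2_co.O
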