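import Pool.Agent.MP_66cee2_co.D.Fam

/-
Flat fields give a family, with a field of lifts that is orthogonal to the labels.
-/

namespace Pool.Agent.MP_66cee2_co.D.C

open MeasureTheory Set Filter Metric Topology Matrix Pool.Agent.MP_66cee2_co.X
open scoped ENNReal RealInnerProductSpace

namespace FamP

open CFam

variable {d n : ℕ}

/-- almost every point of a set sees it with positive volume in each ball. -/
theorem loc_pos (Z : Set (E d)) :
    ∀ᵐ x, x ∈ Z → ∀ ε : ℝ, 0 < ε → volume (Z ∩ ball x ε) ≠ 0 := by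
  rw [ae_iff]
  refine measure_null_of_locally_null _ fun x hx => ?_
  simp only [mem_ofPred_eq] at hx
  push Not at hx
  obtain ⟨-, ε, hε, h⟩ := hx
  refine ⟨Z ∩ ball x ε, mem_nhdsWithin.2 ⟨ball x ε, isOpen_ball, mem_ball_self hε, ?_⟩, h⟩
  rintro y ⟨h1, h2⟩
  simp only [mem_ofPred_eq] at h2
  push Not at h2
  exact ⟨h2.1, h1⟩

/-- the family from countably many pieces. -/
theorem fam_of2 (hK : SKit d) (h2 : SOpen d) {V : E d → Ix n → ℝ} {I : Type} [Countable I]
    (Z : I → Set (E d)) (W : I → Submodule ℝ (Ix n → ℝ)) (hZ : ∀ i, MeasurableSet (Z i))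
    (hp : ∀ᵐ y, 0 < lz (V y) (V y)) (ha : ∀ᵐ y, Sg Z W y ≤ perp (V y))
    (hb : ∀ᵐ z, ∃ i, z ∈ Z i ∧ ∀ u, Sg Z W z ≤ perp u → u ∈ W i) :
    ∃ O : (Ix n → ℝ) → Set (E d), Fam O ∧
      ∀ᵐ x, ∀ i, x ∈ Z i → ∀ v, ∀ z ∈ O v, ‖x - z‖ = 1 → W i ≤ perp v := by
  refine ⟨fun v => {y | 0 < lz v v ∧ ∃ r, 0 < r ∧ ∀ᵐ y', y' ∈ ball y r → Sg Z W y' ≤ perp v},
    ⟨fun v => ?_, fun v hv => ?_, ?_, ?_⟩, ?_⟩
  · rw [Metric.isOpen_iff]
    rintro y ⟨hv, r, hr, h⟩
    refine ⟨r / 2, half_pos hr, fun y₁ hy₁ =>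
      ⟨hv, r / 2, half_pos hr, h.mono fun y' hy' hb => hy' ?_⟩⟩
    rw [mem_ball] at hy₁ hb ⊢
    linarith [dist_triangle y' y₁ y]
  · obtain ⟨y, hy, -⟩ := hv
    exact hy
  · rw [Metric.dense_iff]
    intro x ρ hρ
    obtain ⟨y, hy, hG, r, hr, h⟩ := h2 I (Ix n) Z W _ x ρ hZ (hp.and ha) hρ
    exact ⟨y, hy, mem_iUnion.2 ⟨V y, hG.1, r, hr, h.mono fun y' h1 h3 => (h1 h3).trans hG.2⟩⟩
  · rintro v v' y z ⟨-, r, hr, h⟩ ⟨-, r', hr', h'⟩ hyz
    have hε : 0 < min (r / 2) r' := lt_min (half_pos hr) hr'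
    obtain ⟨i, hi, hpos⟩ : ∃ i, v' ∈ W i ∧ volume (Z i ∩ ball z (min (r / 2) r')) ≠ 0 := by
      by_contra hn
      push Not at hn
      have h3 : ∀ᵐ z', ∀ i, v' ∈ W i → z' ∉ Z i ∩ ball z (min (r / 2) r') := by
        refine ae_all_iff.2 fun i => ?_
        by_cases hi : v' ∈ W i
        · exact (measure_eq_zero_iff_ae_notMem.1 (hn i hi)).mono fun z' h _ => h
        · exact Eventually.of_forall fun z' h => absurd h hi
      refine (measure_ball_pos volume z hε).ne' (measure_eq_zero_iff_ae_notMem.2 ?_)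
      filter_upwards [h3, hb, h'] with z' h4 ⟨i, h5, h6⟩ h7 h8
      exact h4 i (h6 _ (h7 (ball_subset_ball (min_le_right _ _) h8))) ⟨h5, h8⟩
    have h3 : volume (ball y r ∩ Nb (Z i)) ≠ 0 := fun h0 => hpos (measure_mono_null
      (inter_subset_inter_right _ ((ball_subset_ball (min_le_left _ _)).trans (ball_nb hr hyz)))
      (hK.nb_swap _ _ measurableSet_ball (hZ i) h0))
    obtain ⟨y', hy', h4⟩ := Measure.exists_mem_of_measure_ne_zero_of_ae h3 (ae_restrict_of_ae h)
    have h5 := mem_perp.1 (h4 hy'.1 (le_Sg hy'.2 hi))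
    rwa [lz_comm] at h5
  · filter_upwards [ae_all_iff.2 fun i => loc_pos (Z i)] with x hx i hi
    rintro v z ⟨-, r, hr, h⟩ hxz
    rw [norm_sub_rev] at hxz
    have h3 : volume (ball z r ∩ Nb (Z i)) ≠ 0 := fun h0 => hx i hi (r / 2) (half_pos hr)
      (measure_mono_null (inter_subset_inter_right _ (ball_nb hr hxz))
        (hK.nb_swap _ _ measurableSet_ball (hZ i) h0))
    obtain ⟨y', hy', h4⟩ := Measure.exists_mem_of_measure_ne_zero_of_ae h3 (ae_restrict_of_ae h)
    exact (le_Sg hy'.2).trans (h4 hy'.1)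

/-- flat fields give a family whose labels are orthogonal to all that the field sees. -/
theorem famB {d n : ℕ} (hK : SKit d) (h1 : SCnt d) (h2 : SOpen d) {V : E d → Ix n → ℝ}
    (hV : FlatF V) : ∃ O : (Ix n → ℝ) → Set (E d), Fam O ∧ ∀ᵐ x, ∀ u : Ix n → ℝ,
      (∀ᵐ ω ∂sig d, lz u (V (x + ω)) = 0) → ∀ v, ∀ z ∈ O v, ‖x - z‖ = 1 → lz u v = 0 := by
  classical
  have mc := CFam.meas_c hV.meas
  obtain ⟨J, ξ, mJ, mξ, nrm, orth, uniq⟩ :=
    sRows d (Ix n) Unit (fun x _ => Jv (V x)) fun _ a => mc a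
  have hD : ∀ j, Dual (fun x (_ : Unit) => Jv (V x)) J fun y => ξ y j := fun j =>
    ⟨fun _ a => mc a, mJ, mξ j, fun y y' h a ha => by rw [nrm y j a ha, nrm y' j a (h ▸ ha)],
      fun k => sUp sSig d _ _ _ (mξ j) mc
        (ae_of_all _ fun y => (orth y j).mono fun ω h => h k), ae_of_all _ uniq⟩
  have mξ' : Measurable ξ := measurable_pi_iff.2 fun j => measurable_pi_iff.2 (mξ j)
  have hlev : ∀ᵐ x : E d, 0 < volume {y | ξ y = ξ x} := by
    filter_upwards [ae_all_iff.2 fun j => h1 (Ix n) _ J _ (hD j)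
      (hV.flat.mono fun y hy => CFam.flat_c hy)] with x hx
    refine CFam.pos_of_small (x := x) (small_iff.2
      ((smR_exists fun j => small_iff.1 (hx j)).mono' fun τ η hη => ?_))
    by_contra hn
    simp only [mem_ofPred_eq, not_exists, Far, not_or, not_lt] at hn hη
    exact hη (funext fun j => sub_eq_zero.1 (norm_le_zero_iff.1 (hn j).2))
  have hspan : ∀ (x : E d) (u : Ix n → ℝ), (∀ᵐ ω ∂sig d, lz u (V (x + ω)) = 0) →
      u ∈ Submodule.span ℝ (range (ξ x)) := fun x u hu => by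
    rw [gal_span (nrm x) (orth x) (uniq x) u (hu.mono fun ω h _ => h)]
    exact Submodule.sum_mem _ fun j _ =>
      Submodule.smul_mem _ _ (Submodule.subset_span (mem_range_self j))
  have hc : Countable {p : Ix n → Ix n → ℝ | 0 < volume {y | ξ y = p}} :=
    (Measure.countable_meas_level_set_pos mξ').to_subtype
  have hZ : ∀ p : Ix n → Ix n → ℝ, MeasurableSet {y | ξ y = p} := fun p =>
    mξ' (measurableSet_singleton p)
  refine (fam_of2 hK h2 (V := V) (I := {p : Ix n → Ix n → ℝ | 0 < volume {y | ξ y = p}})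
    (fun p => {y | ξ y = p.1}) (fun p => Submodule.span ℝ (range p.1)) (fun p => hZ p.1)
    hV.pos ?_ ?_).imp fun O hO => ⟨hO.1, ?_⟩
  rotate_left 2
  · filter_upwards [hO.2, hlev] with x hx hl u hu v z hz hxz
    exact CFam.mem_perp.1 (hx ⟨ξ x, hl⟩ rfl v z hz hxz (hspan x u hu))
  · have h3 : ∀ (p : {p : Ix n → Ix n → ℝ | 0 < volume {y | ξ y = p}}) (j : Ix n),
        ∀ᵐ y, y ∉ {y | lz (p.1 j) (V y) ≠ 0} ∩ Nb {y | ξ y = p.1} := fun p j => by
      refine measure_eq_zero_iff_ae_notMem.1 (hK.nb_swap _ _ (hZ p.1) ?_ ?_)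
      · refine (measurableSet_eq_fun ?_ measurable_const).compl
        unfold lz dotProduct
        exact Finset.measurable_sum _ fun a _ => (mc a).const_mul _
      · rw [eq_empty_of_forall_notMem (s := _ ∩ _) ?_, measure_empty]
        rintro x ⟨hx, hx'⟩
        refine hx' (measure_eq_zero_iff_ae_notMem.2 ((orth x j).mono fun ω h hn => hn ?_))
        rw [← hx]
        exact h ()
    filter_upwards [ae_all_iff.2 fun p => ae_all_iff.2 (h3 p)] with y hy
    refine iSup₂_le fun p hp => Submodule.span_le.2 ?_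
    rintro _ ⟨j, rfl⟩
    by_contra hn
    exact hy p j ⟨hn, hp⟩
  · have h3 : ∀ᵐ x : E d, 0 < volume {y | ξ y = ξ x} ∧
        V x ∈ Submodule.span ℝ (range (ξ x)) := by
      filter_upwards [hlev, hV.orth] with x hx hu
      exact ⟨hx, hspan x _ hu⟩
    filter_upwards [hlev, sSig.right d _ h3] with z hz hn
    refine ⟨⟨ξ z, hz⟩, rfl, fun u hu => hspan z u ?_⟩
    have h4 : ∀ᵐ m ∂sig d, ∀ p : {p : Ix n → Ix n → ℝ | 0 < volume {y | ξ y = p}},
        ξ (z + m) = p.1 → z ∈ Nb {y | ξ y = p.1} := by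
      refine ae_all_iff.2 fun p => ?_
      by_cases hp : z ∈ Nb {y | ξ y = p.1}
      · exact Eventually.of_forall fun _ _ => hp
      · exact (measure_eq_zero_iff_ae_notMem.1 (not_not.1 hp)).mono fun m h h' => absurd h' h
    filter_upwards [hn, h4] with m h5 h6
    rw [lz_comm]
    have h7 := h6 ⟨ξ (z + m), h5.1⟩ rfl
    have h8 := CFam.le_Sg (I := {p : Ix n → Ix n → ℝ | 0 < volume {y | ξ y = p}})
      (Z := fun p => {y | ξ y = p.1}) (W := fun p => Submodule.span ℝ (range p.1))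
      (i := ⟨ξ (z + m), h5.1⟩) h7
    exact CFam.mem_perp.1 (hu (h8 h5.2))


theorem lz_add_smul (g w : Ix n → ℝ) (t : ℝ) :
    lz (g + t • w) (g + t • w) = lz g g + 2 * t * lz g w + t ^ 2 * lz w w := by
  simp only [lz_eq, Pi.add_apply, Pi.smul_apply, smul_eq_mul]
  have h : ∑ i, (g (Sum.inl i) + t * w (Sum.inl i)) * (g (Sum.inl i) + t * w (Sum.inl i)) =
      ∑ i, g (Sum.inl i) * g (Sum.inl i) + 2 * t * ∑ i, g (Sum.inl i) * w (Sum.inl i) +
        t ^ 2 * ∑ i, w (Sum.inl i) * w (Sum.inl i) := by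
    rw [Finset.mul_sum, Finset.mul_sum, ← Finset.sum_add_distrib, ← Finset.sum_add_distrib]
    exact Finset.sum_congr rfl fun i _ => by ring
  rw [h]
  ring

theorem minor {P : Matrix (Ix n) (Ix n) ℝ} (hP : P.PosSemidef) (h0 : 0 < P sI sI) (a : Ix n) :
    P sI a * P sI a ≤ P a a * P sI sI := by
  classical
  have hs : P a sI = P sI a := by simpa using hP.1.apply sI a
  have h := hP.dotProduct_mulVec_nonneg (P sI sI • Pi.single a 1 - P sI a • Pi.single sI 1)
  simp only [star_trivial, mulVec_sub, mulVec_smul, mulVec_single_one, sub_dotProduct,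
    dotProduct_sub, smul_dotProduct, dotProduct_smul, single_dotProduct, smul_eq_mul, one_mul,
    col_apply, hs] at h
  have h2 : 0 ≤ P sI sI * (P a a * P sI sI - P sI a * P sI a) := by nlinarith
  have := nonneg_of_mul_nonneg_right h2 h0
  linarith

/-- the row space contains a lift. -/
theorem lift_mem {P : Matrix (Ix n) (Ix n) ℝ}
    (hP : P.PosSemidef ∧ 0 < P sI sI ∧ trJ P = P sI sI) :
    ∃ g ∈ Submodule.span ℝ (range fun a => P a), g sI = 1 ∧ lz g g = 1 := by
  obtain ⟨hP, h0, ht⟩ := hP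
  have hm : ∀ a, P a ∈ Submodule.span ℝ (range fun a => P a) := fun a =>
    Submodule.subset_span (mem_range_self a)
  have hs : ∀ a b, P a b = P b a := fun a b => by simpa using hP.1.apply b a
  set s := P sI sI with hs0
  set g : Ix n → ℝ := s⁻¹ • P sI with hg
  have g0 : g ∈ Submodule.span ℝ (range fun a => P a) := Submodule.smul_mem _ _ (hm _)
  have g1 : g sI = 1 := by simp only [hg, Pi.smul_apply, smul_eq_mul]; exact inv_mul_cancel₀ h0.ne'
  have ga : ∀ a, P sI a = s * g a := fun a => by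
    simp only [hg, Pi.smul_apply, smul_eq_mul]; field_simp
  have hd : ∀ i : Fin n, 0 ≤ P (Sum.inl i) (Sum.inl i) - s * (g (Sum.inl i) * g (Sum.inl i)) :=
    fun i => by
      have h := minor hP h0 (Sum.inl i)
      rw [ga, ← hs0] at h
      have h2 : 0 ≤ s * (P (Sum.inl i) (Sum.inl i) - s * (g (Sum.inl i) * g (Sum.inl i))) := by
        nlinarith
      exact nonneg_of_mul_nonneg_right h2 h0
  have key : s * (1 - lz g g) =
      2 * ∑ i, (P (Sum.inl i) (Sum.inl i) - s * (g (Sum.inl i) * g (Sum.inl i))) := by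
    have e1 : trJ P = 2 * ∑ i, P (Sum.inl i) (Sum.inl i) + 2 * P sI (Sum.inr false) := by
      simp only [trJ, Fintype.sum_sum_type, Jv, Fintype.sum_bool, Bool.not_true, Bool.not_false,
        Finset.mul_sum]
      rw [hs (Sum.inr false) (Sum.inr true)]
      ring
    rw [ga] at e1
    have g2 : g (Sum.inr true) = 1 := g1
    rw [Finset.sum_sub_distrib, ← Finset.mul_sum, lz_eq, g2]
    linarith
  by_cases hz : ∀ i : Fin n, P (Sum.inl i) (Sum.inl i) - s * (g (Sum.inl i) * g (Sum.inl i)) = 0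
  · refine ⟨g, g0, g1, ?_⟩
    rw [Finset.sum_eq_zero fun i _ => hz i, mul_zero] at key
    have := (mul_eq_zero.1 key).resolve_left h0.ne'
    linarith
  push Not at hz
  obtain ⟨i, hi⟩ := hz
  have hle : lz g g ≤ 1 := by
    have h1 : 0 ≤ s * (1 - lz g g) := by
      rw [key]; exact mul_nonneg two_pos.le (Finset.sum_nonneg fun i _ => hd i)
    have := nonneg_of_mul_nonneg_right h1 h0
    linarith
  set w : Ix n → ℝ := P (Sum.inl i) - (s * g (Sum.inl i)) • g with hw
  have w0 : w ∈ Submodule.span ℝ (range fun a => P a) :=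
    Submodule.sub_mem _ (hm _) (Submodule.smul_mem _ _ g0)
  have w1 : w (Sum.inr true) = 0 := by
    have g2 : g (Sum.inr true) = 1 := g1
    simp only [hw, Pi.sub_apply, Pi.smul_apply, smul_eq_mul, g2]
    rw [hs, ga]
    ring
  have w2 : 0 < lz w w := by
    rw [lz_eq, w1]
    have h1 : w (Sum.inl i) * w (Sum.inl i) ≤ ∑ j, w (Sum.inl j) * w (Sum.inl j) :=
      Finset.single_le_sum (f := fun j => w (Sum.inl j) * w (Sum.inl j))
        (fun j _ => mul_self_nonneg _) (Finset.mem_univ i)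
    have h2 : w (Sum.inl i) ≠ 0 := by
      simp only [hw, Pi.sub_apply, Pi.smul_apply, smul_eq_mul]
      rwa [mul_assoc]
    have := mul_self_pos.2 h2
    linarith
  obtain ⟨t, ht1⟩ := exists_quadratic_eq_zero (K := ℝ) (a := lz w w) (b := 2 * lz g w)
    (c := lz g g - 1) w2.ne' ⟨√(discrim (lz w w) (2 * lz g w) (lz g g - 1)), by
      rw [Real.mul_self_sqrt]
      rw [discrim]
      nlinarith [sq_nonneg (2 * lz g w), mul_nonneg w2.le (sub_nonneg.2 hle)]⟩
  refine ⟨g + t • w, Submodule.add_mem _ g0 (Submodule.smul_mem _ _ w0), ?_, ?_⟩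
  · have w3 : w sI = 0 := w1
    simp only [Pi.add_apply, Pi.smul_apply, smul_eq_mul, g1, w3]
    ring
  · rw [lz_add_smul]
    linarith

theorem lz_span {P : Matrix (Ix n) (Ix n) ℝ} {g v : Ix n → ℝ}
    (hg : g ∈ Submodule.span ℝ (range fun a => P a)) (h : ∀ a, lz (P a) v = 0) : lz g v = 0 := by
  refine mem_perp.1 ((Submodule.span_le (p := perp v)).2 ?_ hg)
  rintro _ ⟨a, rfl⟩
  exact h a

end FamP

end Pool.Agent.MP_66cee2_co.D.C

namespace Pool.Agent.MP_66cee2_co.D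

open MeasureTheory Set Filter Pool.Agent.MP_66cee2_co.X C

/-- a family together with a field of lifts. -/
structure FamG {d n : ℕ} (O : (Ix n → ℝ) → Set (E d)) (g : E d → Ix n → ℝ) : Prop where
  fam : Fam O
  lft : ∀ᵐ x, g x sI = 1 ∧ lz (g x) (g x) = 1
  lab : ∀ᵐ x, ∀ v, ∀ z ∈ O v, ‖x - z‖ = 1 → lz (g x) v = 0
  all : AllPair fun x y => lz (g x) (g y) = 0

/-- a flat field that is orthogonal to the rows gives a family with lifts. -/
def SFamP : Prop :=
  ∀ (d n : ℕ) (P : E d → Matrix (Ix n) (Ix n) ℝ) (V : E d → Ix n → ℝ), 3 ≤ d → Field P →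
    FlatF V → (AePair fun x y => ∀ a, lz (P x a) (V y) = 0) →
    ∃ (O : (Ix n → ℝ) → Set (E d)) (g : E d → Ix n → ℝ), FamG O g

theorem sFamP : SFamP := by
  classical
  intro d n P V hd hP hV hpin
  have hK := sKit hd
  have hC := sCap hd
  obtain ⟨O, hO, hB⟩ := FamP.famB hK
    (sCnt (sCntF hd) (sCntD hd (sJac hd) hC (sQuad hd (sArc hd)) (sChord hd)))
    (sOpen hd hK (sK hd (sJacL77 (by omega)) hC hK)) hV
  have hex : ∀ x, ∃ g ∈ Submodule.span ℝ (range fun a => P x a),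
      ((P x).PosSemidef ∧ 0 < P x sI sI ∧ trJ (P x) = P x sI sI) → g sI = 1 ∧ lz g g = 1 := by
    intro x
    by_cases h : (P x).PosSemidef ∧ 0 < P x sI sI ∧ trJ (P x) = P x sI sI
    · obtain ⟨g, h1, h2⟩ := FamP.lift_mem h
      exact ⟨g, h1, fun _ => h2⟩
    · exact ⟨0, Submodule.zero_mem _, fun h' => absurd h' h⟩
  choose g hg hg' using hex
  refine ⟨O, g, hO, hP.pos.mono hg', ?_, fun w hw => ?_⟩
  · filter_upwards [hB, hpin] with x h1 h2 v z hz hxz
    exact h1 _ (h2.mono fun ω h => FamP.lz_span (hg x) h) v z hz hxz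
  · have h : ∀ a b, ∀ᵐ x, lz (P x a) (P (x + w) b) = 0 := fun a b =>
      sUp sSig d (Ix n) (fun x => P x a) (fun y => Jv (P y b)) (hP.meas a)
        (CFam.meas_c (V := fun y => P y b) (measurable_pi_iff.2 (hP.meas b)))
        (hP.orth.mono fun x hx => hx.mono fun ω h => h a b) w hw
    filter_upwards [ae_all_iff.2 fun a => ae_all_iff.2 (h a)] with x hx
    refine FamP.lz_span (hg x) fun a => ?_
    rw [lz_comm]
    exact FamP.lz_span (hg (x + w)) fun b => by rw [lz_comm]; exact hx a b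

end Pool.Agent.MP_66cee2_co.D
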