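import Pool.Agent.MP_66cee2_co.O.SpecP
import Pool.Agent.MP_66cee2_co.D.Clq1

/-
Cliques with at most one member of the general type, for `n + 1 ≤ 2 d`.
-/

namespace Pool.Agent.MP_66cee2_co.O

open Pool.Agent.MP_66cee2_co.D

open Pool.Agent.MP_66cee2_co.X Pool.Agent.MP_66cee2_co.XI

namespace Clq1px

open Clq1x

variable {d n : ℕ}

/-- the constant lift of the origin. -/
noncomputable def cHf (d n : ℕ) : Ix n → MP d
  | Sum.inl _ => 0
  | Sum.inr true => 1
  | Sum.inr false => MvPolynomial.C (1 / 2)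

theorem lz_eu_ch (Q : Ix n → MP d) (z z' : E d) :
    lz (evv (eu Q) z) (evv (cHf d n) z') = 0 := by
  simp [lz_eq, evv, eu, cHf, ev]

theorem rank_le1 (hn : n + 1 ≤ 2 * d) (F G : Fin d → Ix n → ℝ)
    (h1 : ∀ a b, a ≠ b → lz (G a) (F b) = 0) (h2 : ∀ a, lz (G a) (F a) ≠ 0) :
    ∃ W : Submodule ℝ (Ix n → ℝ), Module.finrank ℝ W ≤ d + 1 ∧
      ∀ v, (∀ b, lz v (F b) = 0) → v ∈ W := by
  set φ := (Matrix.of fun b a => Jv (F b) a).mulVecLin with hφ
  have e : ∀ v b, φ v b = lz v (F b) := fun v b => by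
    rw [lz, dotProduct_comm]; rfl
  have hs : LinearMap.range φ = ⊤ := by
    rw [LinearMap.range_eq_top]
    intro y
    refine ⟨∑ a, (y a / lz (G a) (F a)) • G a, funext fun b => ?_⟩
    rw [map_sum, Finset.sum_apply, Finset.sum_eq_single b]
    · rw [map_smul, Pi.smul_apply, e, smul_eq_mul, div_mul_cancel₀ _ (h2 b)]
    · intro a _ hab
      rw [map_smul, Pi.smul_apply, e, h1 a b hab, smul_zero]
    · simp
  refine ⟨LinearMap.ker φ, ?_, fun v hv => LinearMap.mem_ker.2 (funext fun b => ?_)⟩
  · have := LinearMap.finrank_range_add_finrank_ker φ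
    rw [hs, finrank_top] at this
    simp only [Module.finrank_fintype_fun_eq_card, Fintype.card_fin, Fintype.card_sum,
      Fintype.card_bool] at this
    omega
  · rw [e, hv]; rfl

end Clq1px

open Clq1x Clq1px in
theorem sClq1p : SA4t → SA2p → SClq1p := by
  classical
  intro h4 h2 d n Q hd hn hQ hu
  have hE : ∀ k, Q k sI = 0 → ∃ i, Q k (Sum.inl i) ≠ 0 := fun k hk =>
    (hQ.ty k).elim (fun h => h.2) fun h => absurd hk h.1
  set Q' : Fin (d + 1) → Ix n → MP d := fun k => if Q k sI = 0 then eu (Q k) else cHf d n with hQ'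
  have top : ∀ k, ∃ (D : ℕ) (w : E d), (∀ a, (Q' k a).totalDegree ≤ D) ∧
      0 < lz (evv (hc D (Q' k)) w) (evv (hc D (Q' k)) w) := fun k => by
    by_cases hk : Q k sI = 0
    · obtain ⟨m, i, hm, hi⟩ := ExhIA.top_fam (p := fun i => Q k (Sum.inl i)) (hE k hk)
      obtain ⟨w, hw⟩ := ex_ev hi
      simp only [hQ', if_pos hk]
      refine ⟨m, w, fun a => ?_, pos_of (i := i) (by simp [evv, hc, eu, ev]) hw⟩
      rcases a with a | a
      · exact hm a
      · simp [eu]
    · simp only [hQ', if_neg hk]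
      refine ⟨0, 0, fun a => ?_, by simp [lz_eq, evv, hc, cHf, ev]⟩
      rcases a with a | _ | _ <;> simp [cHf]
  choose D w hD hw using top
  have hty : ∀ k, Q' k sI = 0 ∨ GC (Q' k) := fun k => by
    by_cases hk : Q k sI = 0
    · simp only [hQ', if_pos hk]
      exact Or.inl rfl
    · simp only [hQ', if_neg hk]
      exact Or.inr fun z => by simp [lz_eq, evv, cHf, ev]; norm_num
  have o4 := h4 d n Q' D w hd hn hty hD hw fun k l hkl z v hv => by
    by_cases hk : Q k sI = 0 <;> by_cases hl : Q l sI = 0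
    · simp only [hQ', if_pos hk, if_pos hl]
      rw [lz_eu hk hl]
      exact hQ.edge k l hkl z v hv
    · simp only [hQ', if_pos hk, if_neg hl]
      exact lz_eu_ch _ _ _
    · simp only [hQ', if_neg hk, if_pos hl]
      rw [lz_comm]
      exact lz_eu_ch _ _ _
    · exact absurd (hu k l hk hl) hkl
  have oE : ∀ k l, k ≠ l → Q k sI = 0 → Q l sI = 0 → Ort (Q k) (Q l) :=
    fun k l hkl hk hl z z' => by
      have := o4 k l hkl z z'
      simp only [hQ', if_pos hk, if_pos hl] at this
      rwa [lz_eu hk hl] at this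
  have oG : ∀ k l, k ≠ l → Q k sI = 0 → Q l sI ≠ 0 → Ort (Q k) (Q l) := by
    intro k l hkl hk hl
    have pt : ∀ j, ∃ z : E d, j ≠ l → 0 < lz (evv (Q j) z) (evv (Q j) z) := fun j => by
      by_cases hj : j = l
      · exact ⟨0, fun h => absurd hj h⟩
      · have h0 : Q j sI = 0 := by
          by_contra h
          exact hj (hu j l h hl)
        obtain ⟨i, hi⟩ := hE j h0
        obtain ⟨z, hz⟩ := ex_ev hi
        exact ⟨z, fun _ => pos_of (i := i) (by simp [evv, h0, ev]) hz⟩
    choose z hz using pt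
    have h0 : ∀ j, j ≠ l → Q j sI = 0 := fun j hj => by
      by_contra h
      exact hj (hu j l h hl)
    have s1 : ∀ v : Ix n → ℝ, lz v (Pi.single (Sum.inr false) 1) = v sI := fun v => by
      simp [lz_eq]
    obtain ⟨W, hW, hm⟩ := rank_le1 (d := d) hn
      (fun b => if k.succAbove b = l then Pi.single (Sum.inr false) 1
        else evv (eu (Q (k.succAbove b))) (z (k.succAbove b)))
      (fun b => if k.succAbove b = l then Pi.single (Sum.inr true) 1
        else evv (eu (Q (k.succAbove b))) (z (k.succAbove b)))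
      (fun a b hab => by
        have hne : k.succAbove a ≠ k.succAbove b := fun h => hab (Fin.succAbove_right_injective h)
        by_cases ha : k.succAbove a = l <;> by_cases hb : k.succAbove b = l
        · exact absurd (ha.trans hb.symm) hne
        · rw [if_pos ha, if_neg hb]
          simp [lz_eq, evv, eu, ev]
        · rw [if_neg ha, if_pos hb, s1]
          simp [evv, eu, ev]
        · rw [if_neg ha, if_neg hb, lz_eu (h0 _ ha) (h0 _ hb)]
          exact oE _ _ hne (h0 _ ha) (h0 _ hb) _ _)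
      (fun a => by
        by_cases ha : k.succAbove a = l
        · rw [if_pos ha, if_pos ha, s1]
          simp
        · rw [if_neg ha, if_neg ha, lz_eu (h0 _ ha) (h0 _ ha)]
          exact (hz _ ha).ne')
    refine h2 d n (Q k) (Q l) W hd hW (fun x => hm _ fun b => ?_) (hQ.edge k l hkl)
    by_cases hb : k.succAbove b = l
    · rw [if_pos hb, s1]
      simp [evv, hk, ev]
    · rw [if_neg hb, lz_eu' hk (h0 _ hb)]
      exact oE _ _ (Fin.succAbove_ne k b).symm hk (h0 _ hb) _ _
  intro k l hkl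
  by_cases hk : Q k sI = 0 <;> by_cases hl : Q l sI = 0
  · exact oE k l hkl hk hl
  · exact oG k l hkl hk hl
  · exact (oG l k hkl.symm hl hk).symm
  · exact absurd (hu k l hk hl) hkl

end Pool.Agent.MP_66cee2_co.O
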