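import Pool.Agent.MP_66cee2_co.O.AllO
import Pool.Agent.MP_66cee2_co.TR.TT

/-
Maps into spaces of dimension at most `2 d - 1`: the theorem.
-/

namespace Pool.Agent.MP_66cee2_co.O

open Pool.Agent.MP_66cee2_co.D

theorem allIso (d n : ℕ) (hd : 3 ≤ d) (hn : n + 1 ≤ 2 * d) : XT.AllIso d n :=
  allIso_of_noFam d n hd hn fun O => TR.sTT3 d n O hd (by omega)

end Pool.Agent.MP_66cee2_co.O
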