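import Pool.Agent.MP_66cee2_co.O.SpecO

/-
Maps into spaces of dimension at most `2 d - 1`: two further statements.
-/

namespace Pool.Agent.MP_66cee2_co.O

open MeasureTheory Pool.Agent.MP_66cee2_co.X Pool.Agent.MP_66cee2_co.XI Pool.Agent.MP_66cee2_co.D

/-- at most one member of the general type. -/
def SClq1p : Prop :=
  ∀ (d n : ℕ) (Q : Fin (d + 1) → Ix n → MP d), 3 ≤ d → n + 1 ≤ 2 * d → Clq Q →
    (∀ k l, Q k sI ≠ 0 → Q l sI ≠ 0 → k = l) → ∀ k l, k ≠ l → Ort (Q k) (Q l)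

/-- the dichotomy. -/
def SDichp : Prop :=
  ∀ (d n : ℕ) (P : E d → Matrix (Ix n) (Ix n) ℝ) (u : E d → Ix n → ℝ), 3 ≤ d → n + 1 ≤ 2 * d →
    Field P → JetField P u →
    (∃ g : E d → E n, Iso g ∧ ∀ᵐ x, ∀ a b, P x a b = P x sI sI * lift (g x) a * lift (g x) b) ∨
      ∃ V : E d → Ix n → ℝ, FlatF V

end Pool.Agent.MP_66cee2_co.O
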